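import Pool.Agent.H.MP_f54a22_an.B

namespace Pool.Agent.Results.MP_f54a22_an.Positive
open MeasureTheory

/-- The Takagi function: the sum of `dist (2^n x, ℤ) / 2^n`. -/
noncomputable def takagi (x : ℝ) : ℝ :=
  ∑' n : ℕ, Metric.infDist (2 ^ n * x) (Set.range ((↑) : ℤ → ℝ)) / 2 ^ n

/-- The level set of the Takagi function on `[0,1]`. -/
def level (y : ℝ) : Set ℝ := {x | x ∈ Set.Icc (0 : ℝ) 1 ∧ takagi x = y}

/-- The ordinates whose level set has exactly `m` points. -/
def S (m : ℕ) : Set ℝ := {y | y ∈ Set.Icc (0 : ℝ) (2 / 3) ∧ (level y).encard = m}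

open Pool.Agent.H.MP_f54a22_an in
theorem result (n : ℕ) (hn : 1 ≤ n) :
    0 < volume (S (2 * n)) ∧ ∃ A ⊆ S (2 * n), MeasurableSet A ∧ 0 < volume A := by
  obtain ⟨A, hA, h0, h⟩ := P_all n hn
  have hs : A ⊆ S (2 * n) := by
    intro y hy
    obtain ⟨a, b, c⟩ := h y hy
    refine ⟨⟨by linarith, b⟩, ?_⟩
    have e : level y = R 0 y := by
      ext t
      simp only [level, R, Set.mem_ofPred_eq, Set.mem_Icc, and_assoc]
      rw [zero_mul, add_zero]
      rfl
    rw [e]; exact c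
  exact ⟨h0.trans_le (measure_mono hs), A, hs, hA, h0⟩

end Pool.Agent.Results.MP_f54a22_an.Positive
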